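import Pool.Agent.H33.HC.TB

/-!
# INFC: the terms with the limit cancel (complex shifts)
-/

set_option autoImplicit false

open NumberField Complex Filter Topology MeasureTheory
open scoped ContDiff nonZeroDivisors

namespace Pool.Agent.H12.HC

open Pool.Agent.H33.HC Pool.Agent.H33.HH Pool.Agent.H28.RC Pool.Agent.H37.CV

section

variable {K : Type} [Field K] [NumberField K]

lemma ic_np_one (p : PrI K) : 1 ≤ np p := by
  unfold np nm
  have h : Ideal.absNorm p.1 ≠ 0 := fun h => p.2.2 (Ideal.absNorm_eq_zero_iff.1 h)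
  exact_mod_cast Nat.one_le_iff_ne_zero.2 h

lemma ic_nS_one (A : Finset (PrI K)) : 1 ≤ nS np A := by
  unfold nS
  calc (1 : ℝ) = ∏ p ∈ A, 1 := by simp
    _ ≤ ∏ p ∈ A, np p := Finset.prod_le_prod (fun _ _ => zero_le_one) fun p _ => ic_np_one p

lemma ic_Cp_mul {P : ℝ} {I J : Ideal (𝓞 K)} (hI : Cp P I) (hJ : Cp P J) : Cp P (I * J) := by
  intro p hp
  rcases p.2.1.mul_le.mp hp with h | h
  · exact hI p h
  · exact hJ p h

/-- the sum over the subsets of the small primes -/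
noncomputable def kp (P : ℝ) (k : Ideal (𝓞 K)) : ℝ :=
  ∑ R₀ ∈ (SP K P).powerset, hk P k R₀ / nS np R₀

open scoped Classical in
/-- the sum over `n` -/
noncomputable def XS (P Z : ℝ) (G : ℝ → ℝ) (J : ℝ → ℂ) (S T : Finset (PrI K)) (s' w : ℂ) : ℂ :=
  sumZ P (fun n => ((nm n : ℝ) : ℂ) ^ (-w) * (Gs G s' (nm n / Z) *
      J (nS np T * nm n / (nS np S * Z))) *
      ((∏ p ∈ S, ((if idS T * n ≤ p.1 then 1 else 0) + 1 - 1 / np p) : ℝ) : ℂ))

open scoped Classical in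
lemma ic_na2 [IQ K] (h3 : T_HSU) (h4 : T_IDF) (P Z Q : ℝ) (G : ℝ → ℝ) (J : ℝ → ℂ) (c : ℂ)
    (k : Ideal (𝓞 K)) (y : ℝ) (hy : 1 ≤ y) (S T : Finset (PrI K)) (hS : S ∈ DP K P y)
    (hT : T ∈ DP K P y) (hk : Sm' P k) (α β : ℂ) (u : ℝ) :
    Na2 P Z Q G k S (idS T) α β u (fun _ t => c * J t) =
      (((2 / (sd K * nm k) * kp P k * Q : ℝ) : ℂ) * c) *
        (((nS np S : ℝ) : ℂ) ^ (α - 1) * ((nS np T : ℝ) : ℂ) ^ (-α)) *
        XS P Z G J S T (se β (-u)) (α + β) := by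
  obtain ⟨hT1, hT2, hT3, -⟩ := h4 K P y hy T hT
  unfold Na2 XS sumZ
  rw [hT3, ← tsum_mul_left, ← tsum_mul_left]
  refine tsum_congr fun I => ?_
  split_ifs with h
  · have h5 := (h3 K P y hy S hS (idS T * I.1) k (mul_ne_zero hT1 I.2) (ic_Cp_mul hT2 h)
      hk).2.2.2
    beta_reduce
    rw [← h5]
    have h6 : ∑ R₁ ∈ S.powerset, ∑ R₀ ∈ (SP K P).powerset,
        ((ha R₁ (idS T * I.1) * Pool.Agent.H33.HH.hk P k R₀ * (Q / (nS np R₁ * nS np R₀)) : ℝ) :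
          ℂ) * (c * J (nS np T * nm I.1 / (nS np S * Z))) =
        (((∑ R₁ ∈ S.powerset, ha R₁ (idS T * I.1) / nS np R₁) * kp P k * Q : ℝ) : ℂ) *
          (c * J (nS np T * nm I.1 / (nS np S * Z))) := by
      rw [show ∑ R₁ ∈ S.powerset, ∑ R₀ ∈ (SP K P).powerset,
        ((ha R₁ (idS T * I.1) * Pool.Agent.H33.HH.hk P k R₀ * (Q / (nS np R₁ * nS np R₀)) : ℝ) :
          ℂ) * (c * J (nS np T * nm I.1 / (nS np S * Z))) =
        ((∑ R₁ ∈ S.powerset, ∑ R₀ ∈ (SP K P).powerset, ha R₁ (idS T * I.1) *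
          Pool.Agent.H33.HH.hk P k R₀ * (Q / (nS np R₁ * nS np R₀)) : ℝ) : ℂ) *
          (c * J (nS np T * nm I.1 / (nS np S * Z))) by
        push_cast
        simp only [Finset.sum_mul]]
      congr 2
      unfold kp
      rw [Finset.sum_mul_sum, Finset.sum_mul]
      refine Finset.sum_congr rfl fun R₁ _ => ?_
      rw [Finset.sum_mul]
      refine Finset.sum_congr rfl fun R₀ _ => ?_
      ring
    rw [h6]
    push_cast
    ring
  · ring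


lemma ic_pow {x Q C₀ : ℝ} (hx : 1 ≤ x) (hxQ : x ≤ Q) (hQ : 1 < Q) (hC : 0 ≤ C₀) {a : ℝ}
    (ha : |a| ≤ C₀ / Real.log Q) : x ^ a ≤ Real.exp C₀ := by
  have hx0 : 0 < x := by linarith
  have hlQ : 0 < Real.log Q := Real.log_pos hQ
  have hlx : 0 ≤ Real.log x := Real.log_nonneg hx
  have hlxQ : Real.log x ≤ Real.log Q := Real.log_le_log hx0 hxQ
  rw [Real.rpow_def_of_pos hx0]
  apply Real.exp_le_exp.2
  calc Real.log x * a ≤ Real.log x * |a| := mul_le_mul_of_nonneg_left (le_abs_self a) hlx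
    _ ≤ Real.log Q * (C₀ / Real.log Q) := mul_le_mul hlxQ ha (abs_nonneg a) hlQ.le
    _ = C₀ := by field_simp

lemma ic_fac {x y Q C₀ : ℝ} (hx : 1 ≤ x) (hxQ : x ≤ Q) (hy : 1 ≤ y) (hyQ : y ≤ Q) (hQ : 1 < Q)
    (hC : 0 ≤ C₀) {α : ℂ} (hα : ‖α‖ ≤ C₀ / Real.log Q) :
    ‖(x : ℂ) ^ (α - 1) * (y : ℂ) ^ (-α)‖ ≤ Real.exp (2 * C₀) * (1 / x) := by
  have hx0 : 0 < x := by linarith
  have hy0 : 0 < y := by linarith
  have hre : |α.re| ≤ C₀ / Real.log Q := (Complex.abs_re_le_norm α).trans hα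
  rw [norm_mul, Complex.norm_cpow_eq_rpow_re_of_pos hx0, Complex.norm_cpow_eq_rpow_re_of_pos hy0,
    Complex.sub_re, Complex.one_re, Complex.neg_re, Real.rpow_sub hx0, Real.rpow_one]
  have h1 : x ^ α.re ≤ Real.exp C₀ := ic_pow hx hxQ hQ hC hre
  have h2 : y ^ (-α.re) ≤ Real.exp C₀ := ic_pow hy hyQ hQ hC (by rwa [abs_neg])
  have h3 : 0 < x ^ α.re := Real.rpow_pos_of_pos hx0 _
  have h4 : 0 < y ^ (-α.re) := Real.rpow_pos_of_pos hy0 _
  calc x ^ α.re / x * y ^ (-α.re) = x ^ α.re * y ^ (-α.re) * (1 / x) := by ring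
    _ ≤ Real.exp C₀ * Real.exp C₀ * (1 / x) := by
        refine mul_le_mul_of_nonneg_right ?_ (by positivity)
        exact mul_le_mul h1 h2 h4.le (Real.exp_pos _).le
    _ = Real.exp (2 * C₀) * (1 / x) := by rw [← Real.exp_add]; ring_nf

end

theorem pf_INFC (h1 : T_IN1C) (h2 : T_JDC) (h3 : Pool.Agent.H33.HH.T_HSU)
    (h4 : Pool.Agent.H33.HH.T_IDF) : T_INFC := by
  classical
  intro K _ _ _ P W G H k θ e C₀ hP hW hG hH hk hpar hC₀
  obtain ⟨C, Q₁, hC, hQ₁, hIN⟩ := h1 K P G H θ e C₀ e hP hG hH hpar hC₀ hpar.epos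
  set B₀ : ℝ := |2 / (sd K * nm k) * kp P k| * |Thi K W| with hB₀
  have hB₀0 : 0 ≤ B₀ := by positivity
  refine ⟨B₀ * (2 * (Real.exp (2 * C₀) * C)), e, max Q₁ (Real.exp (16 * C₀)), by positivity,
    hpar.epos, hQ₁.trans (le_max_left _ _), ?_⟩
  intro Q hQ S hS T hT α β u hAd
  have hQQ₁ : Q₁ ≤ Q := (le_max_left _ _).trans hQ
  have hQe : Real.exp (16 * C₀) ≤ Q := (le_max_right _ _).trans hQ
  have hQ1' : 1 < Q := lt_of_lt_of_le (Real.one_lt_exp_iff.2 (by linarith)) hQe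
  have hQ1 : 1 ≤ Q := hQ1'.le
  have hQ0 : 0 < Q := by linarith
  have hlQ : 16 * C₀ ≤ Real.log Q := (Real.le_log_iff_exp_le hQ0).2 hQe
  have hlQ0 : 0 < Real.log Q := Real.log_pos hQ1'
  have hsm : C₀ / Real.log Q ≤ 1 / 16 := by
    rw [div_le_iff₀ hlQ0]; linarith
  have hNr : ∀ (a : ℂ) (v : ℝ), ‖a‖ ≤ C₀ / Real.log Q → Nr (se a v) := by
    intro a v ha
    unfold Nr se
    have : (1 / 2 + a + (v : ℂ) * I : ℂ).re - 1 / 2 = a.re := by
      simp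
    rw [this]
    exact (Complex.abs_re_le_norm a).trans (ha.trans hsm)
  have hy : 1 ≤ Q ^ θ := Real.one_le_rpow hQ1 hpar.θpos.le
  have hyQ2 : Q ^ θ ≤ Q ^ (1 - 2 * e) :=
    Real.rpow_le_rpow_of_exponent_le hQ1 (by linarith [hpar.le, hpar.epos])
  have hyQ : Q ^ θ ≤ Q := by
    calc Q ^ θ ≤ Q ^ (1 : ℝ) :=
          Real.rpow_le_rpow_of_exponent_le hQ1 (by linarith [hpar.le, hpar.epos])
      _ = Q := Real.rpow_one Q
  obtain ⟨-, -, -, hS1, hS2, -⟩ := h4 K P (Q ^ θ) hy S hS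
  obtain ⟨-, -, -, hT1, hT2, -⟩ := h4 K P (Q ^ θ) hy T hT
  have hI1 := hIN Q hQQ₁ S hS T hT α β u hAd
  have hI2 := hIN Q hQQ₁ T hT S hS β α (-u) ⟨hAd.2, hAd.1⟩
  rw [ic_na2 h3 h4 P (Q ^ (1 + e)) Q G (Jc G H (se α u)) _ k (Q ^ θ) hy S T hS hT hk α β u,
    ic_na2 h3 h4 P (Q ^ (1 + e)) Q G (Jc G H (se β (-u))) _ k (Q ^ θ) hy T S hT hS hk β α (-u)]
  have hJ := h2 G H hG hH (nS np S) (nS np T) α β u (by linarith) (by linarith)
    (hNr α u hAd.1) (hNr β (-u) hAd.2)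
  change ‖XS P (Q ^ (1 + e)) G (Jc G H (se α u)) S T (se β (-u)) (α + β) - _‖ ≤ _ at hI1
  change ‖XS P (Q ^ (1 + e)) G (Jc G H (se β (-u))) T S (se α (- -u)) (β + α) - _‖ ≤ _ at hI2
  rw [Finset.inter_comm T S] at hI2
  rw [neg_neg, add_comm β α] at hI2 ⊢
  set X := XS P (Q ^ (1 + e)) G (Jc G H (se α u)) S T (se β (-u)) (α + β)
  set Y := XS P (Q ^ (1 + e)) G (Jc G H (se β (-u))) T S (se α u) (α + β)
  set I₁ := ∫ t in Set.Ioi (0 : ℝ), (t : ℂ) ^ (-(α + β)) * (Gs G (se β (-u)) t *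
        Jc G H (se α u) (nS np T / nS np S * t))
  set I₂ := ∫ t in Set.Ioi (0 : ℝ), (t : ℂ) ^ (-(α + β)) * (Gs G (se α u) t *
        Jc G H (se β (-u)) (nS np S / nS np T * t))
  set D := ((rk K P * ∏ p ∈ S ∩ T, (2 - 1 / np p) : ℝ) : ℂ) *
      ((Q ^ (1 + e) : ℝ) : ℂ) ^ (1 - (α + β))
  set B : ℂ := ((2 / (sd K * nm k) * kp P k * Q : ℝ) : ℂ) * ((Thi K W : ℝ) : ℂ) with hB
  set a := nS np S
  set b := nS np T
  have ha0 : 0 < a := by linarith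
  have hb0 : 0 < b := by linarith
  have e1 : B * ((a : ℂ) ^ (α - 1) * (b : ℂ) ^ (-α)) * X +
      B * ((b : ℂ) ^ (β - 1) * (a : ℂ) ^ (-β)) * Y =
      B * (((a : ℂ) ^ (α - 1) * (b : ℂ) ^ (-α)) * (X - D * I₁) +
        ((b : ℂ) ^ (β - 1) * (a : ℂ) ^ (-β)) * (Y - D * I₂)) := by
    have e2 : ((a : ℂ) ^ (α - 1) * (b : ℂ) ^ (-α)) * (X - D * I₁) +
        ((b : ℂ) ^ (β - 1) * (a : ℂ) ^ (-β)) * (Y - D * I₂) =
        ((a : ℂ) ^ (α - 1) * (b : ℂ) ^ (-α)) * X + ((b : ℂ) ^ (β - 1) * (a : ℂ) ^ (-β)) * Y -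
        D * ((a : ℂ) ^ (α - 1) * (b : ℂ) ^ (-α) * I₁ + (b : ℂ) ^ (β - 1) * (a : ℂ) ^ (-β) * I₂) := by
      ring
    rw [e2, hJ]
    ring
  have hBn : ‖B‖ = B₀ * Q := by
    rw [hB, hB₀, norm_mul, Complex.norm_real, Complex.norm_real, Real.norm_eq_abs,
      Real.norm_eq_abs, abs_mul, abs_of_pos hQ0]
    ring
  have hf1 := ic_fac hS1 (hS2.trans hyQ) hT1 (hT2.trans hyQ) hQ1' hC₀.le hAd.1
  have hf2 := ic_fac hT1 (hT2.trans hyQ) hS1 (hS2.trans hyQ) hQ1' hC₀.le hAd.2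
  have e3 : ∀ x y : ℝ, 1 ≤ x → x ≤ Q ^ θ → 0 < y →
      Q * (1 / y * Q ^ e) ≤ Q ^ (2 - e) * (1 / (y * x)) := by
    intro x y hx hx2 hy0
    have hx0 : 0 < x := by linarith
    have f1 : Q ^ (2 - e) = Q * Q ^ e * Q ^ (1 - 2 * e) := by
      rw [mul_assoc, ← Real.rpow_add hQ0]
      nth_rewrite 2 [← Real.rpow_one Q]
      rw [← Real.rpow_add hQ0]
      congr 1
      ring
    rw [f1]
    calc Q * (1 / y * Q ^ e) = Q * Q ^ e * (1 / y) * 1 := by ring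
      _ ≤ Q * Q ^ e * (1 / y) * (Q ^ (1 - 2 * e) * (1 / x)) := by
          refine mul_le_mul_of_nonneg_left ?_ (by positivity)
          rw [mul_one_div, le_div_iff₀ hx0, one_mul]
          exact hx2.trans hyQ2
      _ = Q * Q ^ e * Q ^ (1 - 2 * e) * (1 / (y * x)) := by field_simp
  have e4 : Q ^ (2 - e) * (1 / (a * b)) ≤ Er Q e S T := by
    unfold Er
    refine mul_le_mul_of_nonneg_left ?_ (Real.rpow_nonneg hQ0.le _)
    exact div_le_div_of_nonneg_right (ic_nS_one (S ∩ T)) (mul_pos ha0 hb0).le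
  rw [e1, norm_mul, hBn]
  calc B₀ * Q * ‖((a : ℂ) ^ (α - 1) * (b : ℂ) ^ (-α)) * (X - D * I₁) +
        ((b : ℂ) ^ (β - 1) * (a : ℂ) ^ (-β)) * (Y - D * I₂)‖
      ≤ B₀ * Q * ((Real.exp (2 * C₀) * (1 / a)) * (C * Q ^ e) +
          (Real.exp (2 * C₀) * (1 / b)) * (C * Q ^ e)) := by
        refine mul_le_mul_of_nonneg_left ?_ (by positivity)
        refine (norm_add_le _ _).trans (add_le_add ?_ ?_)
        · rw [norm_mul]
          exact mul_le_mul hf1 hI1 (norm_nonneg _) (by positivity)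
        · rw [norm_mul]
          exact mul_le_mul hf2 hI2 (norm_nonneg _) (by positivity)
    _ = B₀ * (Real.exp (2 * C₀) * C) * (Q * (1 / a * Q ^ e) + Q * (1 / b * Q ^ e)) := by ring
    _ ≤ B₀ * (Real.exp (2 * C₀) * C) * (Er Q e S T + Er Q e S T) := by
        refine mul_le_mul_of_nonneg_left (add_le_add ?_ ?_) (by positivity)
        · exact (e3 b a hT1 hT2 ha0).trans e4
        · refine (e3 a b hS1 hS2 hb0).trans ?_
          rw [mul_comm b a]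
          exact e4
    _ = B₀ * (2 * (Real.exp (2 * C₀) * C)) * Er Q e S T := by ring

end Pool.Agent.H12.HC
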